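import Pool.Agent.W114.PQ.Stm

/-! PQ-GS: integers without exact prime divisors. -/

set_option autoImplicit false

namespace Pool.Agent.W465.PQ.GS

open Finset Pool.Agent.W114.PQ
open Pool.Agent.H951R4.OD (ch PI Ex)

/-- the decomposition `g = d * a ^ 2 * b ^ 3` with `d ∣ c0` -/
lemma decomp (c0 g : ℕ) (hc : 0 < c0) (hg : 0 < g) (h : ∀ p : ℕ, ¬ Ex c0 g p) :
    ∃ d a b : ℕ, d ∣ c0 ∧ 0 < a ∧ 0 < b ∧ g = d * a ^ 2 * b ^ 3 := by
  obtain ⟨s, t, hst, hs⟩ := Nat.sq_mul_squarefree g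
  have hs0 : s ≠ 0 := hs.ne_zero
  obtain ⟨s1, hs1⟩ : ∃ s1, s1 = Nat.gcd s c0 := ⟨_, rfl⟩
  have h1 : s1 ∣ s := hs1 ▸ Nat.gcd_dvd_left s c0
  have h2 : s1 ∣ c0 := hs1 ▸ Nat.gcd_dvd_right s c0
  obtain ⟨s2, hs2⟩ := h1
  have hs20 : s2 ≠ 0 := by
    rintro rfl
    exact hs0 (by rw [hs2, mul_zero])
  have hsq2 : Squarefree s2 := hs.squarefree_of_dvd ⟨s1, by rw [hs2, mul_comm]⟩
  have hdvd : s2 ∣ t := by
    rw [← Nat.prod_primeFactors_of_squarefree hsq2]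
    refine Finset.prod_primes_dvd t (fun p hp => (Nat.prime_of_mem_primeFactors hp).prime)
      fun p hp => ?_
    have hpp := Nat.prime_of_mem_primeFactors hp
    have hp2 := Nat.dvd_of_mem_primeFactors hp
    have hps : p ∣ s := hp2.trans ⟨s1, by rw [hs2, mul_comm]⟩
    have hpc : ¬ p ∣ c0 := by
      intro hc'
      have h3 : p ∣ s1 := hs1 ▸ Nat.dvd_gcd hps hc'
      have h4 : p * p ∣ s := by rw [hs2]; exact mul_dvd_mul h3 hp2
      exact hpp.one_lt.ne' (Nat.isUnit_iff.1 (hs p h4))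
    by_contra hpt
    apply h p
    refine ⟨hpp, hpc, hps.trans ⟨t ^ 2, by rw [← hst, mul_comm]⟩, fun h5 => ?_⟩
    rw [← hst] at h5
    have h6 : Nat.Coprime (p ^ 2) (t ^ 2) :=
      Nat.Coprime.pow 2 2 ((Nat.Prime.coprime_iff_not_dvd hpp).2 hpt)
    have h7 := h6.dvd_of_dvd_mul_left h5
    rw [sq] at h7
    exact hpp.one_lt.ne' (Nat.isUnit_iff.1 (hs p h7))
  obtain ⟨a, ha⟩ := hdvd
  have ha0 : a ≠ 0 := by
    rintro rfl
    rw [mul_zero] at ha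
    rw [ha] at hst
    simp at hst
    omega
  refine ⟨s1, a, s2, h2, Nat.pos_of_ne_zero ha0, Nat.pos_of_ne_zero hs20, ?_⟩
  rw [← hst, ha]
  conv_lhs => rw [hs2]
  ring

theorem gs : S_GS := by
  intro c0 hc
  classical
  have hA : Summable fun n : ℕ => (n : ℝ) ^ (-(4 / 3) : ℝ) :=
    Real.summable_nat_rpow.2 (by norm_num)
  have hB : Summable fun n : ℕ => (n : ℝ) ^ (-2 : ℝ) :=
    Real.summable_nat_rpow.2 (by norm_num)
  have hA0 : ∀ n : ℕ, 0 ≤ (n : ℝ) ^ (-(4 / 3) : ℝ) := fun n => Real.rpow_nonneg n.cast_nonneg _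
  have hB0 : ∀ n : ℕ, 0 ≤ (n : ℝ) ^ (-2 : ℝ) := fun n => Real.rpow_nonneg n.cast_nonneg _
  obtain ⟨CA, hCA⟩ : ∃ CA, CA = ∑' n : ℕ, (n : ℝ) ^ (-(4 / 3) : ℝ) := ⟨_, rfl⟩
  obtain ⟨CB, hCB⟩ : ∃ CB, CB = ∑' n : ℕ, (n : ℝ) ^ (-2 : ℝ) := ⟨_, rfl⟩
  have hCA0 : 0 ≤ CA := hCA ▸ tsum_nonneg hA0
  have hCB0 : 0 ≤ CB := hCB ▸ tsum_nonneg hB0
  obtain ⟨K, hK⟩ : ∃ K : ℝ, K = (c0.divisors.card : ℝ) * (CA * CB) := ⟨_, rfl⟩
  have hK0 : 0 ≤ K := by rw [hK]; positivity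
  refine ⟨1 + K, by linarith, fun G S hG hS => ?_⟩
  have hpos : ∀ g ∈ S, 0 < g := by
    intro g hg
    have := (hS g hg).1
    have h1 : (0 : ℝ) < g := by linarith
    exact_mod_cast h1
  have hex : ∀ g : ℕ, ∃ t : ℕ × ℕ × ℕ, g ∈ S →
      t.1 ∣ c0 ∧ 0 < t.2.1 ∧ 0 < t.2.2 ∧ g = t.1 * t.2.1 ^ 2 * t.2.2 ^ 3 := by
    intro g
    by_cases hg : g ∈ S
    · obtain ⟨d, a, b, h1, h2, h3, h4⟩ := decomp c0 g hc (hpos g hg) (hS g hg).2
      exact ⟨(d, a, b), fun _ => ⟨h1, h2, h3, h4⟩⟩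
    · exact ⟨(0, 0, 0), fun h => absurd h hg⟩
  choose τ hτ using hex
  have hinj : Set.InjOn τ (S : Set ℕ) := by
    intro g hg g' hg' heq
    rw [(hτ g hg).2.2.2, (hτ g' hg').2.2.2, heq]
  obtain ⟨M, hM⟩ : ∃ M, M = S.sup id + 1 := ⟨_, rfl⟩
  have key : ∑ g ∈ S, (g : ℝ) ^ (-(2 / 3) : ℝ) ≤ K := by
    have h1 : ∑ g ∈ S, (g : ℝ) ^ (-(2 / 3) : ℝ) ≤
        ∑ t ∈ S.image τ, (t.2.1 : ℝ) ^ (-(4 / 3) : ℝ) * (t.2.2 : ℝ) ^ (-2 : ℝ) := by
      rw [Finset.sum_image hinj]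
      refine Finset.sum_le_sum fun g hg => ?_
      obtain ⟨h1, h2, h3, h4⟩ := hτ g hg
      have hd : 0 < (τ g).1 := Nat.pos_of_dvd_of_pos h1 hc
      have hd' : (1 : ℝ) ≤ (τ g).1 := by exact_mod_cast hd
      have ha' : (0 : ℝ) < (τ g).2.1 := by exact_mod_cast h2
      have hb' : (0 : ℝ) < (τ g).2.2 := by exact_mod_cast h3
      have h5 : (g : ℝ) = (τ g).1 * ((τ g).2.1 : ℝ) ^ 2 * ((τ g).2.2 : ℝ) ^ 3 := by
        exact_mod_cast h4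
      rw [h5, Real.mul_rpow (by positivity) (by positivity),
        Real.mul_rpow (by positivity) (by positivity)]
      have h6 : (((τ g).2.1 : ℝ) ^ 2) ^ (-(2 / 3) : ℝ) = ((τ g).2.1 : ℝ) ^ (-(4 / 3) : ℝ) := by
        rw [← Real.rpow_natCast, ← Real.rpow_mul ha'.le]
        norm_num
      have h7 : (((τ g).2.2 : ℝ) ^ 3) ^ (-(2 / 3) : ℝ) = ((τ g).2.2 : ℝ) ^ (-2 : ℝ) := by
        rw [← Real.rpow_natCast, ← Real.rpow_mul hb'.le]
        norm_num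
      rw [h6, h7]
      refine mul_le_mul_of_nonneg_right ?_ (hB0 _)
      exact mul_le_of_le_one_left (hA0 _) (Real.rpow_le_one_of_one_le_of_nonpos hd' (by norm_num))
    have h2 : S.image τ ⊆ c0.divisors ×ˢ (range M ×ˢ range M) := by
      intro t ht
      obtain ⟨g, hg, rfl⟩ := Finset.mem_image.1 ht
      obtain ⟨h1, h2, h3, h4⟩ := hτ g hg
      have hd : 0 < (τ g).1 := Nat.pos_of_dvd_of_pos h1 hc
      have hgM : g < M := by
        have : g ≤ S.sup id := Finset.le_sup (f := id) hg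
        omega
      rw [Finset.mem_product, Finset.mem_product, Nat.mem_divisors, Finset.mem_range,
        Finset.mem_range]
      refine ⟨⟨h1, hc.ne'⟩, lt_of_le_of_lt ?_ hgM, lt_of_le_of_lt ?_ hgM⟩
      · conv_rhs => rw [h4]
        calc (τ g).2.1 = 1 * (τ g).2.1 ^ 1 * 1 := by ring
          _ ≤ (τ g).1 * (τ g).2.1 ^ 2 * (τ g).2.2 ^ 3 :=
            Nat.mul_le_mul (Nat.mul_le_mul hd (Nat.pow_le_pow_right h2 (by norm_num)))
              (Nat.one_le_pow _ _ h3)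
      · conv_rhs => rw [h4]
        calc (τ g).2.2 = 1 * 1 * (τ g).2.2 ^ 1 := by ring
          _ ≤ (τ g).1 * (τ g).2.1 ^ 2 * (τ g).2.2 ^ 3 :=
            Nat.mul_le_mul (Nat.mul_le_mul hd (Nat.one_le_pow _ _ h2))
              (Nat.pow_le_pow_right h3 (by norm_num))
    refine h1.trans ((Finset.sum_le_sum_of_subset_of_nonneg h2 fun t _ _ =>
      mul_nonneg (hA0 _) (hB0 _)).trans ?_)
    rw [Finset.sum_product]
    dsimp only
    rw [Finset.sum_const, nsmul_eq_mul, hK]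
    refine mul_le_mul_of_nonneg_left ?_ (Nat.cast_nonneg _)
    rw [Finset.sum_product]
    have h3 : ∑ x ∈ range M, ∑ y ∈ range M, (x : ℝ) ^ (-(4 / 3) : ℝ) * (y : ℝ) ^ (-2 : ℝ) =
        (∑ x ∈ range M, (x : ℝ) ^ (-(4 / 3) : ℝ)) * ∑ y ∈ range M, (y : ℝ) ^ (-2 : ℝ) := by
      rw [Finset.sum_mul_sum]
    rw [h3, hCA, hCB]
    exact mul_le_mul (hA.sum_le_tsum _ fun n _ => hA0 n) (hB.sum_le_tsum _ fun n _ => hB0 n)
      (Finset.sum_nonneg fun n _ => hB0 n) (tsum_nonneg hA0)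
  calc ∑ g ∈ S, (1 : ℝ) / g ≤ ∑ g ∈ S, G ^ (-(1 / 3) : ℝ) * (g : ℝ) ^ (-(2 / 3) : ℝ) := by
        refine Finset.sum_le_sum fun g hg => ?_
        have h1 : (0 : ℝ) < g := by exact_mod_cast hpos g hg
        have h2 : (1 : ℝ) / g = (g : ℝ) ^ (-(1 / 3) : ℝ) * (g : ℝ) ^ (-(2 / 3) : ℝ) := by
          rw [← Real.rpow_add h1]
          norm_num
          rw [Real.rpow_neg_one]
        rw [h2]
        exact mul_le_mul_of_nonneg_right
          (Real.rpow_le_rpow_of_nonpos (by linarith) (hS g hg).1 (by norm_num))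
          (Real.rpow_nonneg h1.le _)
    _ = G ^ (-(1 / 3) : ℝ) * ∑ g ∈ S, (g : ℝ) ^ (-(2 / 3) : ℝ) := by rw [Finset.mul_sum]
    _ ≤ G ^ (-(1 / 3) : ℝ) * (1 + K) :=
        mul_le_mul_of_nonneg_left (key.trans (by linarith)) (Real.rpow_nonneg (by linarith) _)
    _ = (1 + K) * G ^ (-(1 / 3) : ℝ) := mul_comm _ _

theorem gd : S_GD := by
  intro c0 n hn
  classical
  have hmem : ∀ p, p ∈ EP c0 n n ↔ Ex c0 n p := by
    intro p
    unfold EP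
    rw [Finset.mem_filter, Finset.mem_Icc]
    refine ⟨fun h => h.2, fun h => ⟨⟨h.1.one_lt.le, Nat.le_of_dvd hn h.2.2.1⟩, h⟩⟩
  have hdvd : ∏ p ∈ EP c0 n n, p ∣ n :=
    Finset.prod_primes_dvd n (fun p hp => ((hmem p).1 hp).1.prime)
      fun p hp => ((hmem p).1 hp).2.2.1
  obtain ⟨g, hg⟩ := hdvd
  have hn' : n = g * ∏ p ∈ EP c0 n n, p := by rw [mul_comm]; exact hg
  have hg0 : 1 ≤ g := by
    rcases Nat.eq_zero_or_pos g with h | h
    · rw [h, zero_mul] at hn'; omega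
    · exact h
  have hnd : ∀ p ∈ EP c0 n n, ¬ p ∣ g := by
    intro p hp hpg
    apply ((hmem p).1 hp).2.2.2
    rw [hn', sq]
    exact mul_dvd_mul hpg (Finset.dvd_prod_of_mem (fun p => p) hp)
  refine ⟨g, hg0, hn', fun p hp => ?_, hnd⟩
  obtain ⟨h1, h2, h3, h4⟩ := hp
  have hpn : p ∉ EP c0 n n := fun h => hnd p h h3
  have hcop : Nat.Coprime p (∏ p ∈ EP c0 n n, p) := by
    rw [Nat.Prime.coprime_iff_not_dvd h1]
    intro h5
    obtain ⟨q, hq, hpq⟩ := (Prime.dvd_finsetProd_iff h1.prime _).1 h5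
    have : p = q := (Nat.prime_dvd_prime_iff_eq h1 ((hmem q).1 hq).1).1 hpq
    exact hpn (this ▸ hq)
  apply hpn
  rw [hmem]
  refine ⟨h1, h2, ?_, fun h5 => h4 ?_⟩
  · rw [hn']; exact h3.mul_right _
  · rw [hn'] at h5
    exact (Nat.Coprime.pow_left 2 hcop).dvd_of_dvd_mul_right h5

end Pool.Agent.W465.PQ.GS
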